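import Pool.Agent.Helper51.CX.St

/-!
# Project CX (MP_a41ee4_co), module BDD: bounds for differences.
-/

set_option autoImplicit false

namespace Pool.Agent.Helper48.CX

open Pool.Agent.Helper51.CX

theorem hBDD : StGAP → StBDD := by
  intro hG K _ _ _ j h1 h2 d
  obtain ⟨hp, hw, he⟩ := pwe_le j h2 d
  obtain ⟨b1, b2, _, _, _, _, _, b3, b4⟩ := bds (K := K) j h2
  obtain ⟨l1, l2⟩ := la_bds (K := K) j h1 h2
  obtain ⟨g1, g2⟩ := hG K j h1 h2 d
  have hla : (la j : K) ≠ 0 := ne_of_gt (by linarith)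
  have hn := nn_nonneg d
  have hm := mm_nonneg d
  have hA : L j d = 0 → L (ga j) d = 0 → 10 ^ 40 * ww j d + 10 ^ 20 * pp j d - el j d = 0 := by
    intro e0 e1
    rw [e0, e1, sub_zero] at g1
    rcases mul_eq_zero.mp g1.symm with h | h
    · exact absurd h hla
    · exact h
  have hB : L j d = 0 → L (gb j) d = 0 → -(10 ^ 40 * ww j d) + 10 ^ 20 * pp j d - el j d = 0 := by
    intro e0 e1
    rw [e0, e1, sub_zero] at g2
    rcases mul_eq_zero.mp g2.symm with h | h
    · exact absurd h hla
    · exact h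
  have h40 : |(10 : K) ^ 40 * ww j d| = 10 ^ 40 * |ww j d| := by
    rw [abs_mul, abs_of_pos (by positivity : (0 : K) < 10 ^ 40)]
  refine ⟨?_, ?_, ?_, ?_, hw, hp, he, FF_d0 j d, FF_d1 j d⟩
  · intro h0
    have e : (10 : K) ^ 60 * d 5 = -(10 ^ 40 * ((qx j : K) * d 0 + (qy j : K) * d 1) +
        (la j : K) * (10 ^ 20 * pp j d - el j d)) := by
      simp only [L] at h0
      simp only [pp, el]
      linear_combination h0
    have e1 : |(10 : K) ^ 60 * d 5| = 10 ^ 60 * |d 5| := by
      rw [abs_mul, abs_of_pos (by positivity : (0 : K) < 10 ^ 60)]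
    have e2 : |(qx j : K) * d 0 + (qy j : K) * d 1| ≤ 1707 * nn d := by
      have a1 := abs_add_le ((qx j : K) * d 0) ((qy j : K) * d 1)
      rw [abs_mul, abs_mul] at a1
      have a2 := mul_le_mul_of_nonneg_right b1 (abs_nonneg (d 0))
      have a3 := mul_le_mul_of_nonneg_right b2 (abs_nonneg (d 1))
      simp only [nn]
      linarith
    have e3 : |(10 : K) ^ 20 * pp j d - el j d| ≤ 10 ^ 20 * (63 * nn d) + mm d := by
      have a1 := abs_sub ((10 : K) ^ 20 * pp j d) (el j d)
      rw [abs_mul, abs_of_pos (by positivity : (0 : K) < 10 ^ 20)] at a1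
      have a2 := mul_le_mul_of_nonneg_left hp (by positivity : (0 : K) ≤ 10 ^ 20)
      linarith
    have e4 : |(la j : K) * (10 ^ 20 * pp j d - el j d)| ≤ 3 * (10 ^ 20 * (63 * nn d) + mm d) := by
      rw [abs_mul, abs_of_nonneg b3]
      exact mul_le_mul b4 e3 (abs_nonneg _) (by norm_num)
    have e5 : 10 ^ 60 * |d 5| ≤ 10 ^ 40 * (1707 * nn d) + 3 * (10 ^ 20 * (63 * nn d) + mm d) := by
      rw [← e1, e, abs_neg]
      refine (abs_add_le _ _).trans (add_le_add ?_ e4)
      rw [abs_mul, abs_of_pos (by positivity : (0 : K) < 10 ^ 40)]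
      exact mul_le_mul_of_nonneg_left e2 (by positivity)
    have e6 : (10 : K) ^ 60 * |d 5| ≤ 10 ^ 44 * (nn d + mm d) := by
      nlinarith [e5, hn, hm]
    have e7 : (10 : K) ^ 44 * (10 ^ 16 * |d 5|) ≤ 10 ^ 44 * (nn d + mm d) := by
      calc (10 : K) ^ 44 * (10 ^ 16 * |d 5|) = 10 ^ 60 * |d 5| := by ring
        _ ≤ _ := e6
    exact le_of_mul_le_mul_left e7 (by positivity)
  · intro e0 e1
    have h := hA e0 e1
    rw [← h40, ← abs_neg]
    congr 1
    linear_combination -h
  · intro e0 e1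
    have h := hB e0 e1
    rw [← h40]
    congr 1
    linear_combination -h
  · intro e0 e1 e2
    have ha := hA e0 e1
    have hb := hB e0 e2
    constructor
    · have h3 : (2 : K) * 10 ^ 40 * ww j d = 0 := by linear_combination ha - hb
      rcases mul_eq_zero.mp h3 with h | h
      · exact absurd h (by positivity)
      · exact h
    · have h3 : (2 : K) * (10 ^ 20 * pp j d - el j d) = 0 := by linear_combination ha + hb
      rcases mul_eq_zero.mp h3 with h | h
      · exact absurd h (by norm_num)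
      · linear_combination h

end Pool.Agent.Helper48.CX
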